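import Pool.Agent.Helper38.MC.P2

/-!
# Project EA, block EA2: the cover tree
-/

set_option autoImplicit false

namespace Pool.Agent.Helper6.EA

open Pool.Agent.Helper38.MC (packing)

/-- the part of the tree below the node `c` -/
theorem treeN {V : Type} [DecidableEq V] (F : Finset V → Prop) {r l : ℕ} (hr : ∀ e, F e → e.card ≤ r) (d : ℕ) :
    ∀ c : Finset V, r ≤ c.card + d → ∃ (T : Finset (Fin l → Finset V)) (W : Finset V),
      T.card ≤ (r * l + 1) ^ d ∧ W.card + 1 ≤ (r * l + 1) ^ d ∧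
      (∀ e ∈ T, ∀ i j, i ≠ j → Disjoint (e i) (e j)) ∧ (∀ e ∈ T, ∀ i, (e i).card ≤ r) ∧
      ∀ A : Finset V, c ⊆ A → (∀ e, F e → ¬ e ⊆ A) → (∀ e ∈ T, ∃ i, e i ⊆ A) →
        ∀ f, F f → c ⊆ f → ∃ w ∈ f, w ∈ W ∧ w ∉ A := by
  classical
  induction d with
  | zero =>
    intro c hc
    refine ⟨∅, ∅, by simp, by simp, by simp, by simp, ?_⟩
    intro A hcA hF _ f hf hcf
    have h1 := hr f hf
    have h2 : c = f := Finset.eq_of_subset_of_card_le hcf (by omega)
    exact absurd (h2 ▸ hcA) (hF f hf)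
  | succ d ih =>
    intro c hc
    have hK : 1 ≤ (r * l + 1) ^ d := Nat.one_le_pow _ _ (by omega)
    rcases packing (fun e : Finset V => ∃ f, F f ∧ c ⊆ f ∧ e = f \ c) r (by
        rintro e ⟨f, hf, -, rfl⟩
        exact (Finset.card_le_card Finset.sdiff_subset).trans (hr f hf)) l with ⟨e, he1, he2⟩ | ⟨C0, hC1, hC2⟩
    · refine ⟨{e}, ∅, ?_, ?_, ?_, ?_, ?_⟩
      · rw [Finset.card_singleton]
        exact Nat.one_le_pow _ _ (by omega)
      · rw [Finset.card_empty]
        exact Nat.one_le_pow _ _ (by omega)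
      · intro e' he'
        rw [Finset.mem_singleton] at he'
        subst he'
        exact he1
      · intro e' he' i
        rw [Finset.mem_singleton] at he'
        subst he'
        obtain ⟨f, hf, -, h3⟩ := he2 i
        rw [h3]
        exact (Finset.card_le_card Finset.sdiff_subset).trans (hr f hf)
      · intro A hcA hF hT f hf hcf
        obtain ⟨i, hi⟩ := hT e (Finset.mem_singleton_self e)
        obtain ⟨f', hf', h2, h3⟩ := he2 i
        exfalso
        apply hF f' hf'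
        intro w hw
        by_cases hwc : w ∈ c
        · exact hcA hwc
        · apply hi
          rw [h3]
          exact Finset.mem_sdiff.2 ⟨hw, hwc⟩
    · have hex : ∀ z : V, ∃ (T : Finset (Fin l → Finset V)) (W : Finset V),
          T.card ≤ (r * l + 1) ^ d ∧ W.card + 1 ≤ (r * l + 1) ^ d ∧
          (∀ e ∈ T, ∀ i j, i ≠ j → Disjoint (e i) (e j)) ∧ (∀ e ∈ T, ∀ i, (e i).card ≤ r) ∧
          (z ∉ c → ∀ A : Finset V, insert z c ⊆ A → (∀ e, F e → ¬ e ⊆ A) → (∀ e ∈ T, ∃ i, e i ⊆ A) →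
            ∀ f, F f → insert z c ⊆ f → ∃ w ∈ f, w ∈ W ∧ w ∉ A) := by
        intro z
        by_cases hz : z ∉ c
        · obtain ⟨T, W, h1, h2, h3, h4, h5⟩ := ih (insert z c) (by
            rw [Finset.card_insert_of_notMem hz]; omega)
          exact ⟨T, W, h1, h2, h3, h4, fun _ => h5⟩
        · exact ⟨∅, ∅, by simp, by simpa using hK, by simp, by simp, fun h => absurd h hz⟩
      choose T W h1 h2 h3 h4 h5 using hex
      refine ⟨C0.biUnion T, C0 ∪ C0.biUnion W, ?_, ?_, ?_, ?_, ?_⟩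
      · refine Finset.card_biUnion_le.trans ?_
        calc ∑ z ∈ C0, (T z).card ≤ ∑ _z ∈ C0, (r * l + 1) ^ d := Finset.sum_le_sum (fun z _ => h1 z)
          _ = C0.card * (r * l + 1) ^ d := by rw [Finset.sum_const, smul_eq_mul]
          _ ≤ (r * l + 1) * (r * l + 1) ^ d := Nat.mul_le_mul_right _ (by omega)
          _ = (r * l + 1) ^ (d + 1) := by ring
      · have h6 : (C0.biUnion W).card + C0.card ≤ C0.card * (r * l + 1) ^ d := by
          have h7 : (C0.biUnion W).card ≤ ∑ z ∈ C0, (W z).card := Finset.card_biUnion_le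
          have h8 : ∑ z ∈ C0, ((W z).card + 1) ≤ ∑ _z ∈ C0, (r * l + 1) ^ d := Finset.sum_le_sum (fun z _ => h2 z)
          rw [Finset.sum_add_distrib, Finset.sum_const, Finset.sum_const, smul_eq_mul, smul_eq_mul, mul_one] at h8
          omega
        have h9 := Finset.card_union_le C0 (C0.biUnion W)
        have h10 : C0.card * (r * l + 1) ^ d ≤ r * l * (r * l + 1) ^ d := Nat.mul_le_mul_right _ hC1
        have h11 : (r * l + 1) ^ (d + 1) = r * l * (r * l + 1) ^ d + (r * l + 1) ^ d := by ring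
        omega
      · intro e he
        obtain ⟨z, _, hz⟩ := Finset.mem_biUnion.1 he
        exact h3 z e hz
      · intro e he
        obtain ⟨z, _, hz⟩ := Finset.mem_biUnion.1 he
        exact h4 z e hz
      · intro A hcA hF hT f hf hcf
        have h6 := hC2 (f \ c) ⟨f, hf, hcf, rfl⟩
        rw [Finset.not_disjoint_iff] at h6
        obtain ⟨z, hz1, hz2⟩ := h6
        rw [Finset.mem_sdiff] at hz1
        by_cases hzA : z ∈ A
        · obtain ⟨w, hw1, hw2, hw3⟩ := h5 z hz1.2 A (Finset.insert_subset hzA hcA) hF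
            (fun e he => hT e (Finset.mem_biUnion.2 ⟨z, hz2, he⟩)) f hf (Finset.insert_subset hz1.1 hcf)
          exact ⟨w, hw1, Finset.mem_union_right _ (Finset.mem_biUnion.2 ⟨z, hz2, hw2⟩), hw3⟩
        · exact ⟨z, hz1.1, Finset.mem_union_left _ hz2, hzA⟩

/-- EA2 -/
theorem tree {V : Type} [Fintype V] [DecidableEq V] (F : Finset V → Prop) {r l : ℕ} (hr : ∀ e, F e → e.card ≤ r) :
    ∃ T : Finset (Fin l → Finset V), T.card ≤ (r * l + 1) ^ r ∧ (∀ e ∈ T, ∀ i j, i ≠ j → Disjoint (e i) (e j)) ∧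
      (∀ e ∈ T, ∀ i, (e i).card ≤ r) ∧
      ∀ A : Finset V, (∀ e, F e → ¬ e ⊆ A) → (∀ e ∈ T, ∃ i, e i ⊆ A) →
        ∃ C : Finset V, (∀ w ∈ C, w ∉ A) ∧ C.card ≤ (r * l + 1) ^ r ∧ ∀ e, F e → ∃ w ∈ e, w ∈ C := by
  obtain ⟨T, W, h1, h2, h3, h4, h5⟩ := treeN F (l := l) hr r ∅ (by simp)
  refine ⟨T, h1, h3, h4, fun A hF hT => ⟨W \ A, ?_, ?_, ?_⟩⟩
  · intro w hw
    exact (Finset.mem_sdiff.1 hw).2
  · exact (Finset.card_le_card Finset.sdiff_subset).trans (by omega)
  · intro e he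
    obtain ⟨w, hw1, hw2, hw3⟩ := h5 A (Finset.empty_subset _) hF hT e he (Finset.empty_subset _)
    exact ⟨w, hw1, Finset.mem_sdiff.2 ⟨hw2, hw3⟩⟩

end Pool.Agent.Helper6.EA
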