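import Pool.Agent.Helper5.RS.Defs

/-!
# Project EA (MP_b6b996_nt), block C2: the sum over the pairs
-/

set_option autoImplicit false

namespace Pool.Agent.Helper51.EA

open Finset Pool.Agent.Helper5.RM Pool.Agent.Helper5.RS

/-! ### elementary sums -/

private lemma sum_le_inj38 {α β : Type*} [DecidableEq β] (s : Finset α) (t : Finset β) (f : α → ℝ) (g : β → ℝ)
    (e : α → β) (he : ∀ a ∈ s, e a ∈ t) (hi : ∀ a ∈ s, ∀ b ∈ s, e a = e b → a = b)
    (hf : ∀ a ∈ s, f a ≤ g (e a)) (hg : ∀ b ∈ t, 0 ≤ g b) : ∑ a ∈ s, f a ≤ ∑ b ∈ t, g b := by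
  calc ∑ a ∈ s, f a ≤ ∑ a ∈ s, g (e a) := sum_le_sum hf
    _ = ∑ b ∈ s.image e, g b := (sum_image (fun a ha b hb h => hi a ha b hb h)).symm
    _ ≤ ∑ b ∈ t, g b := sum_le_sum_of_subset_of_nonneg (image_subset_iff.2 he) (fun b hb _ => hg b hb)

private lemma inv_sqrt_sum38 (n : ℕ) : ∑ j ∈ range n, 1 / Real.sqrt ((j : ℝ) + 1) ≤ 2 * Real.sqrt n := by
  induction n with
  | zero => simp
  | succ n ih =>
    rw [sum_range_succ]
    have h0 : (0 : ℝ) ≤ n := Nat.cast_nonneg n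
    have h1 : 0 < Real.sqrt ((n : ℝ) + 1) := Real.sqrt_pos.2 (by linarith)
    have h2 : Real.sqrt ((n : ℝ) + 1) ^ 2 = n + 1 := Real.sq_sqrt (by linarith)
    have h3 : Real.sqrt (n : ℝ) ^ 2 = n := Real.sq_sqrt h0
    have h4 : 0 ≤ Real.sqrt (n : ℝ) := Real.sqrt_nonneg _
    have h5 : 1 / Real.sqrt ((n : ℝ) + 1) ≤ 2 * Real.sqrt ((n : ℝ) + 1) - 2 * Real.sqrt n := by
      rw [div_le_iff₀ h1]
      nlinarith [sq_nonneg (Real.sqrt ((n : ℝ) + 1) - Real.sqrt n)]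
    rw [Nat.cast_succ]
    linarith

private lemma inv_three_half38 (n : ℕ) :
    ∑ j ∈ range n, 1 / (((j : ℝ) + 1) * Real.sqrt ((j : ℝ) + 1)) ≤ 4 - 4 / Real.sqrt ((n : ℝ) + 1) := by
  induction n with
  | zero => simp
  | succ n ih =>
    rw [sum_range_succ, Nat.cast_succ]
    have h0 : (0 : ℝ) ≤ n := Nat.cast_nonneg n
    set a := Real.sqrt ((n : ℝ) + 1) with ha
    set b := Real.sqrt ((n : ℝ) + 1 + 1) with hb
    have ha2 : a ^ 2 = n + 1 := Real.sq_sqrt (by linarith)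
    have hb2 : b ^ 2 = n + 1 + 1 := Real.sq_sqrt (by linarith)
    have ha0 : 0 < a := Real.sqrt_pos.2 (by linarith)
    have hb0 : 0 < b := Real.sqrt_pos.2 (by linarith)
    have hab : b ≤ 3 / 2 * a := by
      by_contra h
      push Not at h
      nlinarith
    have h1 : 1 / (((n : ℝ) + 1) * a) ≤ 4 / a - 4 / b := by
      rw [← ha2, div_sub_div _ _ ha0.ne' hb0.ne', div_le_div_iff₀ (by positivity) (by positivity)]
      have h2 : 4 * b - a * 4 = 4 * (b - a) := by ring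
      have h3 : (b - a) * (b + a) = 1 := by
        have : (b - a) * (b + a) = b ^ 2 - a ^ 2 := by ring
        rw [this, ha2, hb2]; ring
      have h4 : b * (b + a) ≤ 4 * a ^ 2 := by nlinarith
      have h5 : 0 < b - a := by
        by_contra h
        push Not at h
        nlinarith
      have h6 : b ≤ 4 * a ^ 2 * (b - a) := by
        calc b = b * ((b - a) * (b + a)) := by rw [h3, mul_one]
          _ = (b * (b + a)) * (b - a) := by ring
          _ ≤ 4 * a ^ 2 * (b - a) := mul_le_mul_of_nonneg_right h4 h5.le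
      rw [h2, one_mul]
      nlinarith
    linarith

private lemma mult38 (f : ℕ → ℝ) (hf : ∀ n, 0 ≤ f n) (h N : ℕ) (hh : 1 ≤ h) :
    ∑ X ∈ (Icc 1 N).filter (fun X => h ∣ X), f X ≤ ∑ j ∈ range N, f (h * (j + 1)) := by
  refine sum_le_inj38 _ _ _ (fun j => f (h * (j + 1))) (fun X => X / h - 1) ?_ ?_ ?_ (fun b _ => hf _)
  · intro X hX
    rw [mem_filter, mem_Icc] at hX
    obtain ⟨⟨h1, h2⟩, c, rfl⟩ := hX
    rw [mem_range]
    have hc : 1 ≤ c := by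
      rcases Nat.eq_zero_or_pos c with h0 | h0
      · subst h0; simp at h1
      · exact h0
    have : c ≤ h * c := Nat.le_mul_of_pos_left c hh
    show h * c / h - 1 < N
    rw [Nat.mul_div_cancel_left c hh]
    omega
  · intro X hX X' hX' he
    rw [mem_filter, mem_Icc] at hX hX'
    obtain ⟨⟨h1, h2⟩, c, rfl⟩ := hX
    obtain ⟨⟨h1', h2'⟩, c', rfl⟩ := hX'
    have hc : 1 ≤ c := by
      rcases Nat.eq_zero_or_pos c with h0 | h0
      · subst h0; simp at h1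
      · exact h0
    have hc' : 1 ≤ c' := by
      rcases Nat.eq_zero_or_pos c' with h0 | h0
      · subst h0; simp at h1'
      · exact h0
    have he' : h * c / h - 1 = h * c' / h - 1 := he
    rw [Nat.mul_div_cancel_left c hh, Nat.mul_div_cancel_left c' hh] at he'
    have : c = c' := by omega
    rw [this]
  · intro X hX
    rw [mem_filter, mem_Icc] at hX
    obtain ⟨⟨h1, h2⟩, c, rfl⟩ := hX
    have hc : 1 ≤ c := by
      rcases Nat.eq_zero_or_pos c with h0 | h0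
      · subst h0; simp at h1
      · exact h0
    show f (h * c) ≤ f (h * (h * c / h - 1 + 1))
    rw [Nat.mul_div_cancel_left c hh, Nat.sub_add_cancel hc]

private lemma harm38 (N : ℕ) : ∑ j ∈ range N, 1 / ((j : ℝ) + 1) ≤ 1 + Real.log N := by
  have h := harmonic_le_one_add_log N
  have e : ((harmonic N : ℚ) : ℝ) = ∑ j ∈ range N, 1 / ((j : ℝ) + 1) := by
    rw [harmonic]
    push_cast
    exact sum_congr rfl fun j _ => by rw [one_div]
  rw [← e]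
  exact h

private lemma mult_inv38 (h N : ℕ) (hh : 1 ≤ h) :
    ∑ X ∈ (Icc 1 N).filter (fun X => h ∣ X), 1 / (X : ℝ) ≤ (1 + Real.log N) / h := by
  refine (mult38 (fun X => 1 / (X : ℝ)) (fun n => by positivity) h N hh).trans ?_
  have hp : (0 : ℝ) < h := by exact_mod_cast hh
  have e : ∀ j ∈ range N, (fun X : ℕ => 1 / (X : ℝ)) (h * (j + 1)) = (1 / ((j : ℝ) + 1)) / h := by
    intro j _
    have : (0 : ℝ) < (j : ℝ) + 1 := by positivity
    simp only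
    push_cast
    field_simp
  rw [sum_congr rfl e, ← sum_div]
  exact div_le_div_of_nonneg_right (harm38 N) hp.le

private lemma mult_th38 (h N : ℕ) (hh : 1 ≤ h) :
    ∑ X ∈ (Icc 1 N).filter (fun X => h ∣ X), 1 / ((X : ℝ) * Real.sqrt X) ≤ 4 / (h * Real.sqrt h) := by
  refine (mult38 (fun X => 1 / ((X : ℝ) * Real.sqrt X)) (fun n => by positivity) h N hh).trans ?_
  have hp : (0 : ℝ) < h := by exact_mod_cast hh
  have hs : 0 < Real.sqrt h := Real.sqrt_pos.2 hp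
  have e : ∀ j ∈ range N, (fun X : ℕ => 1 / ((X : ℝ) * Real.sqrt X)) (h * (j + 1)) =
      (1 / (((j : ℝ) + 1) * Real.sqrt ((j : ℝ) + 1))) / (h * Real.sqrt h) := by
    intro j _
    have h1 : (0 : ℝ) < (j : ℝ) + 1 := by positivity
    have h2 : 0 < Real.sqrt ((j : ℝ) + 1) := Real.sqrt_pos.2 h1
    simp only
    push_cast
    rw [Real.sqrt_mul hp.le]
    field_simp
  rw [sum_congr rfl e, ← sum_div]
  refine div_le_div_of_nonneg_right ((inv_three_half38 N).trans ?_) (by positivity)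
  have : 0 ≤ 4 / Real.sqrt ((N : ℝ) + 1) := by positivity
  linarith

private lemma class38 (S : Finset ℕ) (h M : ℕ) (hh : 1 ≤ h) (hS : ∀ m ∈ S, 1 ≤ m ∧ m ≤ M)
    (hc : ∀ m ∈ S, ∀ m' ∈ S, m % h = m' % h) :
    ∑ m ∈ S, 1 / Real.sqrt (m : ℝ) ≤ 1 + 2 * Real.sqrt M / h := by
  have hp : (0 : ℝ) < h := by exact_mod_cast hh
  have hs : 0 < Real.sqrt h := Real.sqrt_pos.2 hp
  have hs2 : Real.sqrt h * Real.sqrt h = h := Real.mul_self_sqrt hp.le
  set f : ℕ → ℝ := fun j => if j = 0 then 1 else 1 / Real.sqrt ((h : ℝ) * j) with hf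
  have hf0 : ∀ j, 0 ≤ f j := by
    intro j
    simp only [hf]
    split_ifs <;> positivity
  have h1 : ∑ m ∈ S, 1 / Real.sqrt (m : ℝ) ≤ ∑ j ∈ range (M / h + 1), f j := by
    refine sum_le_inj38 _ _ _ f (fun m => m / h) ?_ ?_ ?_ (fun b _ => hf0 b)
    · intro m hm
      rw [mem_range]
      exact Nat.lt_succ_of_le (Nat.div_le_div_right (hS m hm).2)
    · intro m hm m' hm' he
      have he' : m / h = m' / h := he
      have := hc m hm m' hm'
      rw [← Nat.div_add_mod m h, ← Nat.div_add_mod m' h, he', this]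
    · intro m hm
      have hm1 : (1 : ℝ) ≤ m := by exact_mod_cast (hS m hm).1
      show 1 / Real.sqrt (m : ℝ) ≤ f (m / h)
      simp only [hf]
      split_ifs with h0
      · rw [div_le_one (Real.sqrt_pos.2 (by linarith))]
        rw [Real.one_le_sqrt]
        exact hm1
      · have hj : 0 < m / h := Nat.pos_of_ne_zero h0
        have hj' : (0 : ℝ) < ((m / h : ℕ) : ℝ) := by exact_mod_cast hj
        refine one_div_le_one_div_of_le (Real.sqrt_pos.2 (by positivity)) (Real.sqrt_le_sqrt ?_)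
        have : h * (m / h) ≤ m := Nat.mul_div_le m h
        exact_mod_cast this
  refine h1.trans ?_
  rw [sum_range_succ']
  have h2 : ∀ j ∈ range (M / h), f (j + 1) = (1 / Real.sqrt ((j : ℝ) + 1)) / Real.sqrt h := by
    intro j _
    simp only [hf]
    rw [if_neg (Nat.succ_ne_zero j), Real.sqrt_mul hp.le, Nat.cast_succ]
    field_simp
  rw [sum_congr rfl h2, ← sum_div]
  have h3 : f 0 = 1 := by simp [hf]
  rw [h3]
  have h4 : (∑ j ∈ range (M / h), 1 / Real.sqrt ((j : ℝ) + 1)) / Real.sqrt h ≤ 2 * Real.sqrt M / h := by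
    have h5 := inv_sqrt_sum38 (M / h)
    have h6 : Real.sqrt ((M / h : ℕ) : ℝ) ≤ Real.sqrt M / Real.sqrt h := by
      rw [← Real.sqrt_div (Nat.cast_nonneg M)]
      exact Real.sqrt_le_sqrt Nat.cast_div_le
    rw [div_le_iff₀ hs]
    calc ∑ j ∈ range (M / h), 1 / Real.sqrt ((j : ℝ) + 1) ≤ 2 * Real.sqrt ((M / h : ℕ) : ℝ) := h5
      _ ≤ 2 * (Real.sqrt M / Real.sqrt h) := by linarith
      _ = 2 * Real.sqrt M / h * Real.sqrt h := by
        have e : 2 * Real.sqrt M / h * Real.sqrt h = 2 * Real.sqrt M * Real.sqrt h / (Real.sqrt h * Real.sqrt h) := by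
          rw [hs2]; ring
        rw [e]
        field_simp
  linarith

/-! ### pairs with `v < r / 2` -/

private lemma fib38 (F : Finset (ℕ × ℕ)) (w : ℕ × ℕ → ℝ) (X : ℕ × ℕ → ℕ) (h1 h2 N : ℕ) (hh1 : 1 ≤ h1)
    (hh2 : 1 ≤ h2) (hX : ∀ p ∈ F, X p ∈ (Icc 1 N).filter (fun X => h1 ∣ X))
    (hv : ∀ p ∈ F, 1 ≤ p.2 ∧ p.2 ≤ X p)
    (hw : ∀ p ∈ F, w p ≤ 4 / ((X p : ℝ) * Real.sqrt (X p)) * (1 / Real.sqrt ((2 * p.2 : ℕ) : ℝ)))
    (hc : ∀ p ∈ F, ∀ p' ∈ F, X p = X p' → 2 * p.2 % h2 = 2 * p'.2 % h2)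
    (hi : ∀ p ∈ F, ∀ p' ∈ F, X p = X p' → p.2 = p'.2 → p = p') :
    ∑ p ∈ F, w p ≤ 16 / (h1 * Real.sqrt h1) + 12 * (1 + Real.log N) / (h1 * h2) := by
  have hp1 : (0 : ℝ) < h1 := by exact_mod_cast hh1
  have hp2 : (0 : ℝ) < h2 := by exact_mod_cast hh2
  rw [← sum_fiberwise_of_maps_to hX]
  have h3 : ∀ x ∈ (Icc 1 N).filter (fun X => h1 ∣ X), ∑ p ∈ F.filter (fun p => X p = x), w p ≤
      4 * (1 / ((x : ℝ) * Real.sqrt x)) + 12 / h2 * (1 / (x : ℝ)) := by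
    intro x hx
    rw [mem_filter, mem_Icc] at hx
    have hx1 : (0 : ℝ) < x := by exact_mod_cast hx.1.1
    have hsx : 0 < Real.sqrt x := Real.sqrt_pos.2 hx1
    calc ∑ p ∈ F.filter (fun p => X p = x), w p
        ≤ ∑ p ∈ F.filter (fun p => X p = x), 4 / ((x : ℝ) * Real.sqrt x) * (1 / Real.sqrt ((2 * p.2 : ℕ) : ℝ)) := by
          refine sum_le_sum fun p hp => ?_
          rw [mem_filter] at hp
          have := hw p hp.1
          rwa [hp.2] at this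
      _ = 4 / ((x : ℝ) * Real.sqrt x) * ∑ p ∈ F.filter (fun p => X p = x), 1 / Real.sqrt ((2 * p.2 : ℕ) : ℝ) := by
          rw [mul_sum]
      _ = 4 / ((x : ℝ) * Real.sqrt x) *
          ∑ m ∈ (F.filter (fun p => X p = x)).image (fun p : ℕ × ℕ => (2 * p.2 : ℕ)), 1 / Real.sqrt ((m : ℕ) : ℝ) := by
          rw [sum_image]
          intro p hp p' hp' he
          rw [mem_coe, mem_filter] at hp hp'
          have he' : 2 * p.2 = 2 * p'.2 := he
          exact hi p hp.1 p' hp'.1 (hp.2.trans hp'.2.symm) (by omega)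
      _ ≤ 4 / ((x : ℝ) * Real.sqrt x) * (1 + 2 * Real.sqrt ((2 * x : ℕ) : ℝ) / h2) := by
          refine mul_le_mul_of_nonneg_left (class38 _ h2 (2 * x) hh2 ?_ ?_) (by positivity)
          · intro m hm
            rw [mem_image] at hm
            obtain ⟨p, hp, rfl⟩ := hm
            rw [mem_filter] at hp
            have := hv p hp.1
            rw [hp.2] at this
            omega
          · intro m hm m' hm'
            rw [mem_image] at hm hm'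
            obtain ⟨p, hp, rfl⟩ := hm
            obtain ⟨p', hp', rfl⟩ := hm'
            rw [mem_filter] at hp hp'
            exact hc p hp.1 p' hp'.1 (hp.2.trans hp'.2.symm)
      _ ≤ 4 * (1 / ((x : ℝ) * Real.sqrt x)) + 12 / h2 * (1 / (x : ℝ)) := by
          have h4 : Real.sqrt ((2 * x : ℕ) : ℝ) ≤ 3 / 2 * Real.sqrt x := by
            push_cast
            rw [Real.sqrt_mul (by norm_num : (0 : ℝ) ≤ 2)]
            refine mul_le_mul_of_nonneg_right ?_ hsx.le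
            rw [Real.sqrt_le_left (by norm_num)]
            norm_num
          have h5 : 4 / ((x : ℝ) * Real.sqrt x) * (2 * Real.sqrt ((2 * x : ℕ) : ℝ) / h2) ≤
              4 / ((x : ℝ) * Real.sqrt x) * (2 * (3 / 2 * Real.sqrt x) / h2) := by
            refine mul_le_mul_of_nonneg_left ?_ (by positivity)
            exact div_le_div_of_nonneg_right (by linarith) hp2.le
          have h6 : 4 / ((x : ℝ) * Real.sqrt x) * (2 * (3 / 2 * Real.sqrt x) / h2) = 12 / h2 * (1 / (x : ℝ)) := by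
            field_simp
            norm_num
          rw [mul_add, mul_one]
          have h7 : 4 / ((x : ℝ) * Real.sqrt x) = 4 * (1 / ((x : ℝ) * Real.sqrt x)) := by ring
          linarith
  refine (sum_le_sum h3).trans ?_
  rw [sum_add_distrib, ← mul_sum, ← mul_sum]
  have h8 := mult_th38 h1 N hh1
  have h9 := mult_inv38 h1 N hh1
  have h10 : 4 * ∑ X ∈ (Icc 1 N).filter (fun X => h1 ∣ X), 1 / ((X : ℝ) * Real.sqrt X) ≤
      16 / (h1 * Real.sqrt h1) := by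
    calc _ ≤ 4 * (4 / (h1 * Real.sqrt h1)) := by linarith
      _ = _ := by ring
  have h11 : 12 / (h2 : ℝ) * ∑ X ∈ (Icc 1 N).filter (fun X => h1 ∣ X), 1 / (X : ℝ) ≤
      12 * (1 + Real.log N) / (h1 * h2) := by
    calc _ ≤ 12 / (h2 : ℝ) * ((1 + Real.log N) / h1) := mul_le_mul_of_nonneg_left h9 (by positivity)
      _ = _ := by field_simp
  linarith

/-- the conditions of the two divisors -/
private def cnd38 (g1 g2 Y : ℕ) (p : ℕ × ℕ) : Prop :=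
  1 ≤ p.2 ∧ p.2 < p.1 ∧ p.1 ≤ Y ∧ g1 ∣ p.1 - p.2 ∧ g2 ∣ p.1 + p.2

private noncomputable def w38 (p : ℕ × ℕ) : ℝ := 1 / ((p.1 : ℝ) * Real.sqrt ((p.1 * p.2 : ℕ) : ℝ))

private lemma w38_nonneg (p : ℕ × ℕ) : 0 ≤ w38 p := by unfold w38; positivity

private lemma w38_far {p : ℕ × ℕ} {X : ℕ} (h1 : 1 ≤ p.2) (h2 : 1 ≤ p.1) (hX : 1 ≤ X) (hX2 : X ≤ 2 * p.1) :
    w38 p ≤ 4 / ((X : ℝ) * Real.sqrt X) * (1 / Real.sqrt ((2 * p.2 : ℕ) : ℝ)) := by
  have hr : (0 : ℝ) < p.1 := by exact_mod_cast h2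
  have hv : (0 : ℝ) < p.2 := by exact_mod_cast h1
  have hx : (0 : ℝ) < X := by exact_mod_cast hX
  have hx2 : (X : ℝ) ≤ 2 * p.1 := by exact_mod_cast hX2
  have e : 4 / ((X : ℝ) * Real.sqrt X) * (1 / Real.sqrt ((2 * p.2 : ℕ) : ℝ)) =
      1 / ((X : ℝ) * Real.sqrt X * Real.sqrt ((2 * p.2 : ℕ) : ℝ) / 4) := by
    push_cast
    have : 0 < Real.sqrt (2 * (p.2 : ℝ)) := Real.sqrt_pos.2 (by positivity)
    have : 0 < Real.sqrt (X : ℝ) := Real.sqrt_pos.2 hx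
    field_simp
  rw [e]
  unfold w38
  refine one_div_le_one_div_of_le ?_ ?_
  · push_cast
    have : 0 < Real.sqrt (2 * (p.2 : ℝ)) := Real.sqrt_pos.2 (by positivity)
    have : 0 < Real.sqrt (X : ℝ) := Real.sqrt_pos.2 hx
    positivity
  · rw [← sq_le_sq₀ (by positivity) (by positivity)]
    push_cast
    rw [div_pow, mul_pow, mul_pow, mul_pow, Real.sq_sqrt hx.le, Real.sq_sqrt (by positivity),
      Real.sq_sqrt (by positivity)]
    have h3 : (X : ℝ) ^ 3 ≤ (2 * p.1) ^ 3 := pow_le_pow_left₀ hx.le hx2 3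
    have h4 : (X : ℝ) ^ 2 * X * (2 * p.2) / 4 ^ 2 = (X : ℝ) ^ 3 * (p.2 / 8) := by ring
    have h5 : (p.1 : ℝ) ^ 2 * (p.1 * p.2) = (2 * p.1) ^ 3 * (p.2 / 8) := by ring
    rw [h4, h5]
    exact mul_le_mul_of_nonneg_right h3 (by positivity)

private lemma h1_ge38 {g h1 h2 : ℕ} (hg : 1 ≤ g) (h : h1 * h2 = g) (hle : h2 ≤ h1) :
    1 / ((h1 : ℝ) * Real.sqrt h1) ≤ (g : ℝ) ^ (-(3 / 4) : ℝ) := by
  have hg0 : (0 : ℝ) < g := by exact_mod_cast hg
  have h0 : 0 < h1 := by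
    rcases Nat.eq_zero_or_pos h1 with h' | h'
    · subst h'; simp at h; omega
    · exact h'
  have h1p : (0 : ℝ) < h1 := by exact_mod_cast h0
  have h3 : (g : ℝ) ≤ (h1 : ℝ) ^ (2 : ℝ) := by
    have : g ≤ h1 ^ 2 := by rw [← h, pow_two]; exact Nat.mul_le_mul_left _ hle
    rw [Real.rpow_two]
    exact_mod_cast this
  have e : (h1 : ℝ) * Real.sqrt h1 = (h1 : ℝ) ^ (3 / 2 : ℝ) := by
    rw [Real.sqrt_eq_rpow]
    nth_rewrite 1 [← Real.rpow_one (h1 : ℝ)]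
    rw [← Real.rpow_add h1p]
    norm_num
  rw [e, Real.rpow_neg hg0.le, ← one_div]
  refine one_div_le_one_div_of_le (by positivity) ?_
  calc (g : ℝ) ^ (3 / 4 : ℝ) ≤ ((h1 : ℝ) ^ (2 : ℝ)) ^ (3 / 4 : ℝ) :=
        Real.rpow_le_rpow hg0.le h3 (by norm_num)
    _ = (h1 : ℝ) ^ (3 / 2 : ℝ) := by
        rw [← Real.rpow_mul h1p.le]; norm_num

private lemma far38 (F : Finset (ℕ × ℕ)) (Y g g1 g2 : ℕ) (hg : 1 ≤ g) (he : g1 * g2 = g) (hY : 1 ≤ Y)
    (hF : ∀ p ∈ F, cnd38 g1 g2 Y p ∧ 2 * p.2 < p.1) :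
    ∑ p ∈ F, w38 p ≤ 16 * (g : ℝ) ^ (-(3 / 4) : ℝ) + 12 * (1 + Real.log ((2 * Y : ℕ) : ℝ)) / g := by
  have hg1 : 1 ≤ g1 := by
    rcases Nat.eq_zero_or_pos g1 with h' | h'
    · subst h'; simp at he; omega
    · exact h'
  have hg2 : 1 ≤ g2 := by
    rcases Nat.eq_zero_or_pos g2 with h' | h'
    · subst h'; simp at he; omega
    · exact h'
  have hgr : (g : ℝ) = (g1 : ℝ) * g2 := by rw [← he]; push_cast; rfl
  rcases le_total g1 g2 with hle | hle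
  · have h := fib38 F w38 (fun p => p.1 + p.2) g2 g1 (2 * Y) hg2 hg1 ?_ ?_ ?_ ?_ ?_
    · refine h.trans (add_le_add ?_ ?_)
      · have h2 := h1_ge38 (h1 := g2) (h2 := g1) hg (by rw [mul_comm]; exact he) hle
        calc 16 / ((g2 : ℝ) * Real.sqrt g2) = 16 * (1 / ((g2 : ℝ) * Real.sqrt g2)) := by ring
          _ ≤ _ := by linarith
      · rw [hgr, mul_comm (g1 : ℝ)]
    · intro p hp
      obtain ⟨⟨h1, h2, h3, h4, h5⟩, h6⟩ := hF p hp
      rw [mem_filter, mem_Icc]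
      exact ⟨⟨by omega, by omega⟩, h5⟩
    · intro p hp
      obtain ⟨⟨h1, h2, h3, h4, h5⟩, h6⟩ := hF p hp
      exact ⟨h1, Nat.le_add_left _ _⟩
    · intro p hp
      obtain ⟨⟨h1, h2, h3, h4, h5⟩, h6⟩ := hF p hp
      exact w38_far h1 (by omega) (by omega) (by omega)
    · intro p hp p' hp' hX
      obtain ⟨⟨h1, h2, h3, ⟨c, h4⟩, h5⟩, h6⟩ := hF p hp
      obtain ⟨⟨h1', h2', h3', ⟨c', h4'⟩, h5'⟩, h6'⟩ := hF p' hp'
      have hX' : p.1 + p.2 = p'.1 + p'.2 := hX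
      have a1 : 2 * p.2 + g1 * c = 2 * p'.2 + g1 * c' := by omega
      have a2 : (2 * p.2 + g1 * c) % g1 = 2 * p.2 % g1 := Nat.add_mul_mod_self_left _ _ _
      have a3 : (2 * p'.2 + g1 * c') % g1 = 2 * p'.2 % g1 := Nat.add_mul_mod_self_left _ _ _
      rw [← a2, ← a3, a1]
    · intro p hp p' hp' hX h7
      have hX' : p.1 + p.2 = p'.1 + p'.2 := hX
      exact Prod.ext (by omega) h7
  · have h := fib38 F w38 (fun p => p.1 - p.2) g1 g2 (2 * Y) hg1 hg2 ?_ ?_ ?_ ?_ ?_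
    · refine h.trans (add_le_add ?_ ?_)
      · have h2 := h1_ge38 (h1 := g1) (h2 := g2) hg he hle
        calc 16 / ((g1 : ℝ) * Real.sqrt g1) = 16 * (1 / ((g1 : ℝ) * Real.sqrt g1)) := by ring
          _ ≤ _ := by linarith
      · rw [hgr]
    · intro p hp
      obtain ⟨⟨h1, h2, h3, h4, h5⟩, h6⟩ := hF p hp
      rw [mem_filter, mem_Icc]
      exact ⟨⟨by omega, by omega⟩, h4⟩
    · intro p hp
      obtain ⟨⟨h1, h2, h3, h4, h5⟩, h6⟩ := hF p hp
      exact ⟨h1, by omega⟩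
    · intro p hp
      obtain ⟨⟨h1, h2, h3, h4, h5⟩, h6⟩ := hF p hp
      exact w38_far h1 (by omega) (by omega) (by omega)
    · intro p hp p' hp' hX
      obtain ⟨⟨h1, h2, h3, h4, h5⟩, h6⟩ := hF p hp
      obtain ⟨⟨h1', h2', h3', h4', h5'⟩, h6'⟩ := hF p' hp'
      have hX' : p.1 - p.2 = p'.1 - p'.2 := hX
      have a1 : p.1 + p.2 = (p.1 - p.2) + 2 * p.2 := by omega
      have a2 : p'.1 + p'.2 = (p.1 - p.2) + 2 * p'.2 := by omega
      have a3 : (p.1 - p.2) + 2 * p.2 ≡ (p.1 - p.2) + 2 * p'.2 [MOD g2] := by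
        rw [← a1, ← a2]
        exact ((Nat.modEq_zero_iff_dvd.2 h5).trans (Nat.modEq_zero_iff_dvd.2 h5').symm)
      exact Nat.ModEq.add_left_cancel' _ a3
    · intro p hp p' hp' hX h7
      obtain ⟨⟨h1, h2, h3, h4, h5⟩, h6⟩ := hF p hp
      obtain ⟨⟨h1', h2', h3', h4', h5'⟩, h6'⟩ := hF p' hp'
      have hX' : p.1 - p.2 = p'.1 - p'.2 := hX
      exact Prod.ext (by omega) h7

private lemma near38 (F : Finset (ℕ × ℕ)) (Y g g1 g2 : ℕ) (κ : ℝ) (hg : 1 ≤ g) (he : g1 * g2 = g)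
    (hκ : 0 < κ) (hκ2 : κ ≤ 1 / 2)
    (hF : ∀ p ∈ F, cnd38 g1 g2 Y p ∧ ((p.1 - p.2 : ℕ) : ℝ) ≤ κ * p.1) :
    ∑ p ∈ F, w38 p ≤ 8 * κ * (1 + Real.log ((2 * Y : ℕ) : ℝ)) / g := by
  have hg1 : 1 ≤ g1 := by
    rcases Nat.eq_zero_or_pos g1 with h' | h'
    · subst h'; simp at he; omega
    · exact h'
  have hg2 : 1 ≤ g2 := by
    rcases Nat.eq_zero_or_pos g2 with h' | h'
    · subst h'; simp at he; omega
    · exact h'
  have hgr : (g : ℝ) = (g1 : ℝ) * g2 := by rw [← he]; push_cast; rfl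
  have hp1 : (0 : ℝ) < g1 := by exact_mod_cast hg1
  have hp2 : (0 : ℝ) < g2 := by exact_mod_cast hg2
  have hX : ∀ p ∈ F, p.1 + p.2 ∈ (Icc 1 (2 * Y)).filter (fun X => g2 ∣ X) := by
    intro p hp
    obtain ⟨⟨h1, h2, h3, h4, h5⟩, h6⟩ := hF p hp
    rw [mem_filter, mem_Icc]
    exact ⟨⟨by omega, by omega⟩, h5⟩
  rw [← sum_fiberwise_of_maps_to hX]
  have h3 : ∀ x ∈ (Icc 1 (2 * Y)).filter (fun X => g2 ∣ X), ∑ p ∈ F.filter (fun p => p.1 + p.2 = x), w38 p ≤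
      8 * κ / g1 * (1 / (x : ℝ)) := by
    intro x hx
    rw [mem_filter, mem_Icc] at hx
    have hx1 : (0 : ℝ) < x := by exact_mod_cast hx.1.1
    have hw : ∀ p ∈ F.filter (fun p => p.1 + p.2 = x), w38 p ≤ 8 / (x : ℝ) ^ 2 := by
      intro p hp
      rw [mem_filter] at hp
      obtain ⟨⟨h1, h2, h3, h4, h5⟩, h6⟩ := hF p hp.1
      have hr : (0 : ℝ) < p.1 := by
        have : 0 < p.1 := by omega
        exact_mod_cast this
      have hx2 : (x : ℝ) ≤ 2 * p.1 := by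
        have : x ≤ 2 * p.1 := by omega
        exact_mod_cast this
      rw [Nat.cast_sub h2.le] at h6
      have h7 : (p.1 : ℝ) / 2 ≤ p.2 := by nlinarith
      have h8 : (p.1 : ℝ) / 2 ≤ Real.sqrt ((p.1 * p.2 : ℕ) : ℝ) := by
        refine Real.le_sqrt_of_sq_le ?_
        push_cast
        nlinarith
      have h9 : (x : ℝ) ^ 2 / 8 ≤ p.1 * Real.sqrt ((p.1 * p.2 : ℕ) : ℝ) := by
        have : (p.1 : ℝ) * (p.1 / 2) ≤ p.1 * Real.sqrt ((p.1 * p.2 : ℕ) : ℝ) := mul_le_mul_of_nonneg_left h8 hr.le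
        nlinarith
      have e : 8 / (x : ℝ) ^ 2 = 1 / ((x : ℝ) ^ 2 / 8) := by field_simp
      rw [e]
      exact one_div_le_one_div_of_le (by positivity) h9
    have hcard : ((F.filter (fun p => p.1 + p.2 = x)).card : ℝ) ≤ κ * x / g1 := by
      have h4 : (F.filter (fun p => p.1 + p.2 = x)).card ≤ (Icc 1 ⌊κ * x / g1⌋₊).card := by
        refine card_le_card_of_injOn (fun p => (p.1 - p.2) / g1) ?_ ?_
        · intro p hp
          rw [mem_coe, mem_filter] at hp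
          obtain ⟨⟨h1, h2, h3, ⟨c, h4⟩, h5⟩, h6⟩ := hF p hp.1
          rw [mem_coe, mem_Icc]
          show 1 ≤ (p.1 - p.2) / g1 ∧ (p.1 - p.2) / g1 ≤ _
          have hc : 1 ≤ c := by
            rcases Nat.eq_zero_or_pos c with h' | h'
            · subst h'; omega
            · exact h'
          rw [h4, Nat.mul_div_cancel_left c hg1]
          refine ⟨hc, Nat.le_floor ?_⟩
          rw [le_div_iff₀ hp1]
          have h7 : ((g1 * c : ℕ) : ℝ) ≤ κ * p.1 := by rw [← h4]; exact h6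
          push_cast at h7
          have h8 : (p.1 : ℝ) ≤ x := by
            have : p.1 ≤ x := by omega
            exact_mod_cast this
          nlinarith
        · intro p hp p' hp' h
          rw [mem_coe, mem_filter] at hp hp'
          obtain ⟨⟨h1, h2, h3, ⟨c, h4⟩, h5⟩, h6⟩ := hF p hp.1
          obtain ⟨⟨h1', h2', h3', ⟨c', h4'⟩, h5'⟩, h6'⟩ := hF p' hp'.1
          have h' : (p.1 - p.2) / g1 = (p'.1 - p'.2) / g1 := h
          rw [h4, h4', Nat.mul_div_cancel_left c hg1, Nat.mul_div_cancel_left c' hg1] at h'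
          subst h'
          exact Prod.ext (by omega) (by omega)
      rw [Nat.card_Icc, Nat.add_sub_cancel] at h4
      calc ((F.filter (fun p => p.1 + p.2 = x)).card : ℝ) ≤ (⌊κ * x / g1⌋₊ : ℝ) := by exact_mod_cast h4
        _ ≤ κ * x / g1 := Nat.floor_le (by positivity)
    calc ∑ p ∈ F.filter (fun p => p.1 + p.2 = x), w38 p
        ≤ ∑ p ∈ F.filter (fun p => p.1 + p.2 = x), 8 / (x : ℝ) ^ 2 := sum_le_sum hw
      _ = ((F.filter (fun p => p.1 + p.2 = x)).card : ℝ) * (8 / (x : ℝ) ^ 2) := by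
          rw [sum_const, nsmul_eq_mul]
      _ ≤ κ * x / g1 * (8 / (x : ℝ) ^ 2) := mul_le_mul_of_nonneg_right hcard (by positivity)
      _ = 8 * κ / g1 * (1 / (x : ℝ)) := by field_simp
  refine (sum_le_sum h3).trans ?_
  rw [← mul_sum]
  calc 8 * κ / g1 * ∑ X ∈ (Icc 1 (2 * Y)).filter (fun X => g2 ∣ X), 1 / (X : ℝ)
      ≤ 8 * κ / g1 * ((1 + Real.log ((2 * Y : ℕ) : ℝ)) / g2) :=
        mul_le_mul_of_nonneg_left (mult_inv38 g2 (2 * Y) hg2) (by positivity)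
    _ = 8 * κ * (1 + Real.log ((2 * Y : ℕ) : ℝ)) / g := by rw [hgr]; field_simp

private lemma log38 (Y : ℕ) (hY : 1 ≤ Y) : 1 + Real.log ((2 * Y : ℕ) : ℝ) ≤ 2 * LL Y := by
  have h1 : (1 : ℝ) ≤ Y := by exact_mod_cast hY
  have h2 : Real.log 2 ≤ 1 := by
    have := Real.log_two_lt_d9
    linarith
  have h3 : 0 ≤ Real.log Y := Real.log_nonneg h1
  unfold LL
  push_cast
  rw [Real.log_mul (by norm_num) (by positivity)]
  linarith

private lemma log38' (Y : ℕ) (hY : 1 ≤ Y) : 0 ≤ 1 + Real.log ((2 * Y : ℕ) : ℝ) := by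
  have h1 : (1 : ℝ) ≤ ((2 * Y : ℕ) : ℝ) := by
    have : 1 ≤ 2 * Y := by omega
    exact_mod_cast this
  have h3 := Real.log_nonneg h1
  linarith

/-- the bound for one divisor -/
private lemma one38 (F : Finset (ℕ × ℕ)) (Y g g1 g2 : ℕ) (κ : ℝ) (hg : 1 ≤ g) (he : g1 * g2 = g) (hY : 1 ≤ Y)
    (hκ : 0 < κ) (hF : ∀ p ∈ F, cnd38 g1 g2 Y p ∧ ((p.1 - p.2 : ℕ) : ℝ) ≤ κ * p.1) :
    ∑ p ∈ F, w38 p ≤ 32 * (if κ ≤ 1 / 2 then LL Y * κ / g else (g : ℝ) ^ (-(3 / 4) : ℝ) + LL Y / g) := by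
  have hg0 : (0 : ℝ) < g := by exact_mod_cast hg
  have hl := log38 Y hY
  have hl0 := log38' Y hY
  split_ifs with h
  · refine (near38 F Y g g1 g2 κ hg he hκ h hF).trans ?_
    rw [← mul_div_assoc, div_le_div_iff_of_pos_right hg0]
    have : 0 ≤ κ * (2 * LL Y - (1 + Real.log ((2 * Y : ℕ) : ℝ))) := mul_nonneg hκ.le (by linarith)
    have h2 : 0 ≤ κ * (1 + Real.log ((2 * Y : ℕ) : ℝ)) := mul_nonneg hκ.le hl0
    nlinarith
  · rw [← sum_filter_add_sum_filter_not F (fun p => 2 * p.2 < p.1)]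
    have h1 := far38 (F.filter (fun p => 2 * p.2 < p.1)) Y g g1 g2 hg he hY (fun p hp => by
      rw [mem_filter] at hp
      exact ⟨(hF p hp.1).1, hp.2⟩)
    have h2 := near38 (F.filter (fun p => ¬ 2 * p.2 < p.1)) Y g g1 g2 (1 / 2) hg he (by norm_num) le_rfl
      (fun p hp => by
        rw [mem_filter] at hp
        refine ⟨(hF p hp.1).1, ?_⟩
        have h3 := (hF p hp.1).1.2.1
        rw [Nat.cast_sub h3.le]
        have h4 : (p.1 : ℝ) ≤ 2 * p.2 := by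
          have := not_lt.1 hp.2
          exact_mod_cast this
        linarith)
    refine (add_le_add h1 h2).trans ?_
    have h5 : 12 * (1 + Real.log ((2 * Y : ℕ) : ℝ)) / g + 8 * (1 / 2) * (1 + Real.log ((2 * Y : ℕ) : ℝ)) / g ≤
        32 * (LL Y / g) := by
      have e : 12 * (1 + Real.log ((2 * Y : ℕ) : ℝ)) / (g : ℝ) + 8 * (1 / 2) * (1 + Real.log ((2 * Y : ℕ) : ℝ)) / g =
          16 * (1 + Real.log ((2 * Y : ℕ) : ℝ)) / g := by ring
      have e2 : 32 * (LL Y / (g : ℝ)) = 32 * LL Y / g := by ring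
      rw [e, e2, div_le_div_iff_of_pos_right hg0]
      linarith
    have h6 : 0 ≤ (g : ℝ) ^ (-(3 / 4) : ℝ) := by positivity
    linarith

/-- one divisor of `g` divides the difference, the other one the sum -/
private lemma dvd38 {g a b : ℕ} (hg : 1 ≤ g) (h : g ∣ a * b) : ∃ g1 ∈ g.divisors, g1 ∣ a ∧ g / g1 ∣ b := by
  refine ⟨g.gcd a, Nat.mem_divisors.2 ⟨Nat.gcd_dvd_left _ _, by omega⟩, Nat.gcd_dvd_right _ _, ?_⟩
  have h1 : 0 < g.gcd a := Nat.gcd_pos_of_pos_left _ hg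
  have h2 : (g / g.gcd a) ∣ (a / g.gcd a) * b := by
    obtain ⟨c, hc⟩ := h
    refine ⟨c, ?_⟩
    have e1 : g = g.gcd a * (g / g.gcd a) := (Nat.mul_div_cancel' (Nat.gcd_dvd_left _ _)).symm
    have e2 : a = g.gcd a * (a / g.gcd a) := (Nat.mul_div_cancel' (Nat.gcd_dvd_right _ _)).symm
    apply Nat.eq_of_mul_eq_mul_left h1
    calc g.gcd a * (a / g.gcd a * b) = (g.gcd a * (a / g.gcd a)) * b := by ring
      _ = a * b := by rw [← e2]
      _ = g * c := hc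
      _ = (g.gcd a * (g / g.gcd a)) * c := by rw [← e1]
      _ = g.gcd a * (g / g.gcd a * c) := by ring
  exact (Nat.coprime_div_gcd_div_gcd h1).dvd_of_dvd_mul_left h2

private lemma half38 (g Y : ℕ) (κ : ℝ) (hg : 1 ≤ g) (hY : 1 ≤ Y) (hκ : 0 < κ) :
    ∑ p ∈ ((Icc 1 Y) ×ˢ (Icc 1 Y)).filter (fun p => p.2 < p.1 ∧ g ∣ (p.1 - p.2) * (p.1 + p.2) ∧
        ((p.1 - p.2 : ℕ) : ℝ) ≤ κ * p.1), w38 p ≤
      32 * (g.divisors.card : ℝ) * (if κ ≤ 1 / 2 then LL Y * κ / g else (g : ℝ) ^ (-(3 / 4) : ℝ) + LL Y / g) := by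
  classical
  set F := ((Icc 1 Y) ×ˢ (Icc 1 Y)).filter (fun p => p.2 < p.1 ∧ g ∣ (p.1 - p.2) * (p.1 + p.2) ∧
        ((p.1 - p.2 : ℕ) : ℝ) ≤ κ * p.1) with hFd
  have h1 : ∑ p ∈ F, w38 p ≤ ∑ p ∈ F, ∑ g1 ∈ g.divisors,
      (if g1 ∣ p.1 - p.2 ∧ g / g1 ∣ p.1 + p.2 then w38 p else 0) := by
    refine sum_le_sum fun p hp => ?_
    rw [hFd, mem_filter] at hp
    obtain ⟨g1, hg1, h2, h3⟩ := dvd38 hg hp.2.2.1
    have h4 : w38 p = (if g1 ∣ p.1 - p.2 ∧ g / g1 ∣ p.1 + p.2 then w38 p else 0) := by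
      rw [if_pos ⟨h2, h3⟩]
    conv_lhs => rw [h4]
    refine single_le_sum (f := fun g1 => if g1 ∣ p.1 - p.2 ∧ g / g1 ∣ p.1 + p.2 then w38 p else 0)
      (fun i _ => ?_) hg1
    show 0 ≤ (if i ∣ p.1 - p.2 ∧ g / i ∣ p.1 + p.2 then w38 p else 0)
    split_ifs
    · exact w38_nonneg p
    · exact le_rfl
  refine h1.trans ?_
  rw [sum_comm]
  have h2 : ∀ g1 ∈ g.divisors, ∑ p ∈ F, (if g1 ∣ p.1 - p.2 ∧ g / g1 ∣ p.1 + p.2 then w38 p else 0) ≤
      32 * (if κ ≤ 1 / 2 then LL Y * κ / g else (g : ℝ) ^ (-(3 / 4) : ℝ) + LL Y / g) := by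
    intro g1 hg1
    rw [← sum_filter]
    refine one38 _ Y g g1 (g / g1) κ hg (Nat.mul_div_cancel' (Nat.dvd_of_mem_divisors hg1)) hY hκ ?_
    intro p hp
    rw [mem_filter, hFd, mem_filter, mem_product, mem_Icc, mem_Icc] at hp
    exact ⟨⟨hp.1.1.2.1, hp.1.2.1, hp.1.1.1.2, hp.2.1, hp.2.2⟩, hp.1.2.2.2⟩
  refine (sum_le_sum h2).trans (le_of_eq ?_)
  rw [sum_const, nsmul_eq_mul]
  ring

theorem pair_sum : ∃ C : ℝ, 0 < C ∧ ∀ (g Y : ℕ) (κ : ℝ), 1 ≤ g → 1 ≤ Y → 0 < κ →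
    ∑ p ∈ ((Icc 1 Y) ×ˢ (Icc 1 Y)).filter (fun p => p.1 ≠ p.2 ∧ Nat.Coprime p.1 p.2 ∧
        (g : ℤ) ∣ (p.1 : ℤ) ^ 2 - (p.2 : ℤ) ^ 2 ∧ (dst p.1 p.2 : ℝ) ≤ κ * (max p.1 p.2 : ℕ)),
      1 / (((max p.1 p.2 : ℕ) : ℝ) * Real.sqrt ((p.1 * p.2 : ℕ) : ℝ)) ≤
    C * (g.divisors.card : ℝ) * (if κ ≤ 1 / 2 then LL Y * κ / g else (g : ℝ) ^ (-(3 / 4) : ℝ) + LL Y / g) := by
  refine ⟨64, by norm_num, fun g Y κ hg hY hκ => ?_⟩
  set F := ((Icc 1 Y) ×ˢ (Icc 1 Y)).filter (fun p => p.1 ≠ p.2 ∧ Nat.Coprime p.1 p.2 ∧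
        (g : ℤ) ∣ (p.1 : ℤ) ^ 2 - (p.2 : ℤ) ^ 2 ∧ (dst p.1 p.2 : ℝ) ≤ κ * (max p.1 p.2 : ℕ)) with hFd
  have hh := half38 g Y κ hg hY hκ
  have hd : ∀ a b : ℕ, b < a → (g : ℤ) ∣ (a : ℤ) ^ 2 - (b : ℤ) ^ 2 → g ∣ (a - b) * (a + b) := by
    intro a b hab h
    have e : (((a - b) * (a + b) : ℕ) : ℤ) = (a : ℤ) ^ 2 - (b : ℤ) ^ 2 := by
      rw [Nat.cast_mul, Nat.cast_sub hab.le, Nat.cast_add]
      ring
    rw [← e] at h
    exact Int.natCast_dvd_natCast.1 h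
  rw [← sum_filter_add_sum_filter_not F (fun p => p.2 < p.1)]
  have h1 : ∑ p ∈ F.filter (fun p => p.2 < p.1), 1 / (((max p.1 p.2 : ℕ) : ℝ) * Real.sqrt ((p.1 * p.2 : ℕ) : ℝ)) ≤
      ∑ p ∈ ((Icc 1 Y) ×ˢ (Icc 1 Y)).filter (fun p => p.2 < p.1 ∧ g ∣ (p.1 - p.2) * (p.1 + p.2) ∧
        ((p.1 - p.2 : ℕ) : ℝ) ≤ κ * p.1), w38 p := by
    refine sum_le_inj38 _ _ _ w38 (fun p => p) ?_ (fun a _ b _ h => h) ?_ (fun b _ => w38_nonneg b)
    · intro p hp
      rw [mem_filter, hFd, mem_filter] at hp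
      obtain ⟨⟨h1, h2, h3, h4, h5⟩, h6⟩ := hp
      rw [mem_filter]
      refine ⟨h1, h6, hd _ _ h6 h4, ?_⟩
      rw [max_eq_left h6.le] at h5
      have e : dst p.1 p.2 = p.1 - p.2 := by unfold dst; omega
      rw [e] at h5
      exact h5
    · intro p hp
      rw [mem_filter] at hp
      rw [max_eq_left hp.2.le]
      exact le_rfl
  have h2 : ∑ p ∈ F.filter (fun p => ¬ p.2 < p.1), 1 / (((max p.1 p.2 : ℕ) : ℝ) * Real.sqrt ((p.1 * p.2 : ℕ) : ℝ)) ≤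
      ∑ p ∈ ((Icc 1 Y) ×ˢ (Icc 1 Y)).filter (fun p => p.2 < p.1 ∧ g ∣ (p.1 - p.2) * (p.1 + p.2) ∧
        ((p.1 - p.2 : ℕ) : ℝ) ≤ κ * p.1), w38 p := by
    refine sum_le_inj38 _ _ _ w38 Prod.swap ?_ (fun a _ b _ h => Prod.swap_injective h) ?_
      (fun b _ => w38_nonneg b)
    · intro p hp
      rw [mem_filter, hFd, mem_filter] at hp
      obtain ⟨⟨h1, h2, h3, h4, h5⟩, h6⟩ := hp
      have h7 : p.1 < p.2 := by omega
      rw [mem_filter]
      rw [mem_product] at h1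
      refine ⟨mem_product.2 ⟨h1.2, h1.1⟩, h7, hd _ _ h7 ?_, ?_⟩
      · have : (p.2 : ℤ) ^ 2 - (p.1 : ℤ) ^ 2 = -((p.1 : ℤ) ^ 2 - (p.2 : ℤ) ^ 2) := by ring
        show (g : ℤ) ∣ (p.2 : ℤ) ^ 2 - (p.1 : ℤ) ^ 2
        rw [this]
        exact (dvd_neg).2 h4
      · rw [max_eq_right h7.le] at h5
        have e : dst p.1 p.2 = p.2 - p.1 := by unfold dst; omega
        rw [e] at h5
        exact h5
    · intro p hp
      rw [mem_filter, hFd, mem_filter] at hp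
      obtain ⟨⟨h1, h2, h3, h4, h5⟩, h6⟩ := hp
      have h7 : p.1 < p.2 := by omega
      rw [max_eq_right h7.le, mul_comm p.1 p.2]
      exact le_rfl
  have := add_le_add (h1.trans hh) (h2.trans hh)
  linarith

end Pool.Agent.Helper51.EA
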